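import Pool.Agent.Run7.h92.EH.Sgn

set_option autoImplicit false

namespace Pool.Agent.Run7.h92.EH

open Matrix

noncomputable section

/-- the class `ω` -/
def om : ExteriorAlgebra ℤ V8 :=
  (wt.map fun t => t.2 • (g t.1.1 * g t.1.2.1 * g t.1.2.2.1 * g t.1.2.2.2)).sum

theorem om_mem (h : S_MEM) : om ∈ ⋀[ℤ]^4 V8 := by
  unfold om
  refine list_sum_mem fun x hx => ?_
  obtain ⟨t, -, rfl⟩ := List.mem_map.1 hx
  exact Submodule.smul_mem _ _ (h _ _ _ _)

theorem bb_om (hS : S_SGN) (k l : Fin 28) :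
    g (pa k) * g (pb k) * (g (pa l) * g (pb l)) * om = mB k l • vol := by
  have key : ∀ L : List ((Fin 8 × Fin 8 × Fin 8 × Fin 8) × ℤ),
      g (pa k) * g (pb k) * (g (pa l) * g (pb l)) *
        (L.map fun t => t.2 • (g t.1.1 * g t.1.2.1 * g t.1.2.2.1 * g t.1.2.2.2)).sum =
      (L.map fun t => t.2 * fq (pa k) (pb k) (pa l) (pb l) t.1.1 t.1.2.1 t.1.2.2.1 t.1.2.2.2).sum •
        vol := by
    intro L
    induction L with
    | nil => simp
    | cons t L ih =>
      rw [List.map_cons, List.sum_cons, List.map_cons, List.sum_cons, mul_add, ih, add_smul,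
        mul_smul_comm]
      congr 1
      have h1 := hS ![pa k, pb k, pa l, pb l, t.1.1, t.1.2.1, t.1.2.2.1, t.1.2.2.2]
      rw [dsgn_fq] at h1
      rw [mul_smul]
      congr 1
  rw [← check_B k l]
  exact key wt

/-- change of basis -/
def mA : Matrix (Fin 28) (Fin 28) ℤ := Matrix.of mP

theorem mA_mul : mA * Matrix.of mR = 1 := by
  ext i j
  rw [Matrix.mul_apply, Matrix.one_apply]
  exact check_PR i j

theorem mul_mA : Matrix.of mR * mA = 1 := mul_eq_one_comm.1 mA_mul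

theorem gram_eq : mA * Matrix.of mB * mAᵀ = Matrix.of mQ := by
  have h1 : mA * Matrix.of mB = Matrix.of mC := by
    ext i j
    rw [Matrix.mul_apply]
    exact check_PB i j
  rw [h1]
  ext i j
  rw [Matrix.mul_apply]
  exact check_CP i j

/-- the linear equivalence given by the change of basis -/
def eA : (Fin 28 → ℤ) ≃ₗ[ℤ] (Fin 28 → ℤ) :=
  LinearEquiv.ofLinearMap (Matrix.vecMulLinear mA) (Matrix.vecMulLinear (Matrix.of mR))
    (by
      ext1 x
      refine LinearMap.ext fun y => ?_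
      simp only [LinearMap.comp_apply, LinearMap.id_apply, Matrix.vecMulLinear_apply,
        Matrix.vecMul_vecMul, mul_mA, Matrix.vecMul_one])
    (by
      ext1 x
      refine LinearMap.ext fun y => ?_
      simp only [LinearMap.comp_apply, LinearMap.id_apply, Matrix.vecMulLinear_apply,
        Matrix.vecMul_vecMul, mA_mul, Matrix.vecMul_one])

theorem eA_apply (x : Fin 28 → ℤ) : eA x = x ᵥ* mA := rfl

theorem t_ASM (hB : S_BAS) (hS : S_SGN) : ∃ f : (Fin 28 → ℤ) ≃ₗ[ℤ] ⋀[ℤ]^2 V8, ∀ x y : Fin 28 → ℤ,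
    (f x : ExteriorAlgebra ℤ V8) * (f y : ExteriorAlgebra ℤ V8) * om =
      (x ⬝ᵥ (Matrix.of mQ *ᵥ y)) • vol := by
  obtain ⟨b, hb⟩ := hB
  refine ⟨eA.trans b.equivFun.symm, fun x y => ?_⟩
  have hf : ∀ x : Fin 28 → ℤ, ((eA.trans b.equivFun.symm x : ⋀[ℤ]^2 V8) : ExteriorAlgebra ℤ V8) =
      ∑ k, (x ᵥ* mA) k • (g (pa k) * g (pb k)) := by
    intro x
    rw [LinearEquiv.trans_apply, eA_apply, Module.Basis.equivFun_symm_apply]
    rw [Submodule.coe_sum]
    refine Finset.sum_congr rfl fun k _ => ?_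
    rw [Submodule.coe_smul, hb]
  rw [hf, hf, ← gram_eq]
  have h1 : ∀ u v : Fin 28 → ℤ, (∑ k, u k • (g (pa k) * g (pb k))) *
      (∑ k, v k • (g (pa k) * g (pb k))) * om = (u ⬝ᵥ (Matrix.of mB *ᵥ v)) • vol := by
    intro u v
    rw [Finset.sum_mul_sum, Finset.sum_mul, dotProduct, Finset.sum_smul]
    refine Finset.sum_congr rfl fun k _ => ?_
    rw [Finset.sum_mul, Matrix.mulVec, dotProduct, Finset.mul_sum, Finset.sum_smul]
    refine Finset.sum_congr rfl fun l _ => ?_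
    rw [smul_mul_smul_comm, smul_mul_assoc, bb_om hS, smul_smul]
    congr 1
    rw [Matrix.of_apply]
    ring
  rw [h1]
  congr 1
  rw [← Matrix.mulVec_mulVec, ← Matrix.mulVec_mulVec, Matrix.dotProduct_mulVec x mA,
    Matrix.mulVec_transpose]

end

end Pool.Agent.Run7.h92.EH
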