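import Pool.Agent.Run7.h92.EH.Stm

set_option autoImplicit false

namespace Pool.Agent.Run7.h92.EH

theorem t_MEM : S_MEM := fun a b c d => by
  show _ ∈ (LinearMap.range (ExteriorAlgebra.ι ℤ : V8 →ₗ[ℤ] _)) ^ 4
  rw [pow_succ, pow_succ, pow_succ, pow_one]
  exact Submodule.mul_mem_mul (Submodule.mul_mem_mul (Submodule.mul_mem_mul ⟨_, rfl⟩ ⟨_, rfl⟩)
    ⟨_, rfl⟩) ⟨_, rfl⟩

end Pool.Agent.Run7.h92.EH
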