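import Pool.Agent.Run7.h92.EH.Dat

set_option autoImplicit false

namespace Pool.Agent.Run7.h92.EH

/-- the nonzero coefficients of `ω` -/
def wt : List ((Fin 8 × Fin 8 × Fin 8 × Fin 8) × ℤ) := [((0, 1, 2, 4), -1),
  ((0, 1, 2, 6), 1),
  ((0, 1, 2, 7), 1),
  ((0, 1, 3, 4), 1),
  ((0, 1, 3, 7), 1),
  ((0, 1, 4, 5), -1),
  ((0, 1, 4, 7), 1),
  ((0, 2, 3, 4), 1),
  ((0, 2, 3, 5), 1),
  ((0, 2, 3, 7), 1),
  ((0, 2, 4, 5), -1),
  ((0, 2, 4, 7), -1),
  ((0, 3, 4, 5), 1),
  ((0, 3, 4, 6), -1),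
  ((0, 3, 4, 7), -1),
  ((0, 3, 5, 7), -1),
  ((0, 4, 5, 6), 1),
  ((1, 2, 3, 4), 1),
  ((1, 2, 3, 5), -1),
  ((1, 2, 4, 5), 1),
  ((1, 2, 4, 6), -1),
  ((1, 2, 4, 7), -1),
  ((1, 3, 4, 5), 1),
  ((1, 3, 5, 6), 1),
  ((1, 3, 5, 7), -1),
  ((1, 3, 6, 7), 1),
  ((1, 4, 5, 6), -1),
  ((1, 4, 5, 7), -1),
  ((1, 4, 6, 7), 1),
  ((2, 3, 4, 5), -1),
  ((2, 3, 5, 7), -1),
  ((2, 3, 6, 7), -1),
  ((2, 4, 5, 6), 1),
  ((2, 4, 5, 7), -1),
  ((2, 4, 6, 7), 1),
  ((2, 5, 6, 7), -1),
  ((3, 4, 5, 6), -1),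
  ((3, 4, 5, 7), -1),
  ((3, 5, 6, 7), -1)]

/-- comparison -/
def sc (a b : ℕ) : ℤ := if a < b then 1 else if b < a then -1 else 0

/-- sign, explicit -/
def fs (a b c d p q r s : ℕ) : ℤ :=
  sc a b * sc a c * sc a d * sc a p * sc a q * sc a r * sc a s * sc b c * sc b d * sc b p * sc b q * sc b r * sc b s * sc c d * sc c p * sc c q * sc c r * sc c s * sc d p * sc d q * sc d r * sc d s * sc p q * sc p r * sc p s * sc q r * sc q s * sc r s

theorem dsgn_fs (c : Fin 8 → Fin 8) :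
    dsgn c = fs (c 0) (c 1) (c 2) (c 3) (c 4) (c 5) (c 6) (c 7) := by
  have h0 : Finset.Ioi (0 : Fin 8) = {1, 2, 3, 4, 5, 6, 7} := by decide
  have h1 : Finset.Ioi (1 : Fin 8) = {2, 3, 4, 5, 6, 7} := by decide
  have h2 : Finset.Ioi (2 : Fin 8) = {3, 4, 5, 6, 7} := by decide
  have h3 : Finset.Ioi (3 : Fin 8) = {4, 5, 6, 7} := by decide
  have h4 : Finset.Ioi (4 : Fin 8) = {5, 6, 7} := by decide
  have h5 : Finset.Ioi (5 : Fin 8) = {6, 7} := by decide
  have h6 : Finset.Ioi (6 : Fin 8) = {7} := by decide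
  have h7 : Finset.Ioi (7 : Fin 8) = ∅ := by decide
  have hsc : ∀ i j : Fin 8, (if c i < c j then (1 : ℤ) else if c j < c i then -1 else 0) =
      sc (c i) (c j) := fun i j => by
    unfold sc
    simp only [Fin.lt_def]
  unfold dsgn fs
  simp only [hsc]
  rw [Fin.prod_univ_eight, h0, h1, h2, h3, h4, h5, h6, h7]
  rw [Finset.prod_insert (by decide), Finset.prod_insert (by decide), Finset.prod_insert (by decide),
    Finset.prod_insert (by decide), Finset.prod_insert (by decide), Finset.prod_insert (by decide),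
    Finset.prod_singleton,
    Finset.prod_insert (by decide), Finset.prod_insert (by decide), Finset.prod_insert (by decide),
    Finset.prod_insert (by decide), Finset.prod_insert (by decide), Finset.prod_singleton,
    Finset.prod_insert (by decide), Finset.prod_insert (by decide), Finset.prod_insert (by decide),
    Finset.prod_insert (by decide), Finset.prod_singleton,
    Finset.prod_insert (by decide), Finset.prod_insert (by decide), Finset.prod_insert (by decide),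
    Finset.prod_singleton,
    Finset.prod_insert (by decide), Finset.prod_insert (by decide), Finset.prod_singleton,
    Finset.prod_insert (by decide), Finset.prod_singleton, Finset.prod_singleton, Finset.prod_empty]
  ring

theorem dsgn_zero {c : Fin 8 → Fin 8} (h : ∑ i, 2 ^ (c i).val ≠ 255) : dsgn c = 0 := by
  have hni : ¬ Function.Injective c := by
    intro hinj
    apply h
    have hb : Function.Bijective c := Finite.injective_iff_bijective.1 hinj
    have := (Equiv.ofBijective c hb).sum_comp (fun i : Fin 8 => 2 ^ i.val)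
    simp only [Equiv.ofBijective_apply] at this
    rw [this]
    decide
  rw [Function.Injective] at hni
  push Not at hni
  obtain ⟨i, j, hij, hne⟩ := hni
  unfold dsgn
  rcases lt_or_gt_of_ne hne with h1 | h1
  · refine Finset.prod_eq_zero (Finset.mem_univ i) (Finset.prod_eq_zero (Finset.mem_Ioi.2 h1) ?_)
    rw [hij]
    simp
  · refine Finset.prod_eq_zero (Finset.mem_univ j) (Finset.prod_eq_zero (Finset.mem_Ioi.2 h1) ?_)
    rw [hij]
    simp

/-- fast sign -/
def fq (a b c d p q r s : ℕ) : ℤ :=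
  if Nat.beq (2 ^ a + 2 ^ b + 2 ^ c + 2 ^ d + 2 ^ p + 2 ^ q + 2 ^ r + 2 ^ s) 255 then fs a b c d p q r s else 0

theorem dsgn_fq (c : Fin 8 → Fin 8) :
    dsgn c = fq (c 0) (c 1) (c 2) (c 3) (c 4) (c 5) (c 6) (c 7) := by
  unfold fq
  split_ifs with h
  · exact dsgn_fs c
  · refine dsgn_zero fun h' => h ?_
    rw [Fin.sum_univ_eight] at h'
    rw [Nat.beq_eq]
    exact h'

theorem check_B : ∀ k l : Fin 28, (wt.map fun t =>
    t.2 * fq (pa k) (pb k) (pa l) (pb l) t.1.1 t.1.2.1 t.1.2.2.1 t.1.2.2.2).sum = mB k l := by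
  decide +kernel

end Pool.Agent.Run7.h92.EH
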