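import Mathlib

set_option autoImplicit false

/-!
# The form of a class in `H^4(ℤ^8)`: interface (three small pieces)
-/

namespace Pool.Agent.Run7.h92.EH

noncomputable section

/-- `ℤ^8 = H^1(ℤ^8)` -/
abbrev V8 : Type := Fin 8 → ℤ

/-- the generators of the exterior algebra -/
def g (i : Fin 8) : ExteriorAlgebra ℤ V8 := ExteriorAlgebra.ι ℤ (Pi.single i (1 : ℤ) : V8)

/-- the volume element `e_0 ∧ ⋯ ∧ e_7` -/
def vol : ExteriorAlgebra ℤ V8 := ExteriorAlgebra.ιMulti ℤ 8 fun i => (Pi.single i (1 : ℤ) : V8)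

/-- the pairs `i < j` -/
def pa : Fin 28 → Fin 8 := ![0, 0, 0, 0, 0, 0, 0, 1, 1, 1, 1, 1, 1, 2, 2, 2, 2, 2, 3, 3, 3, 3, 4, 4, 4, 5, 5, 6]

/-- the pairs `i < j` -/
def pb : Fin 28 → Fin 8 := ![1, 2, 3, 4, 5, 6, 7, 2, 3, 4, 5, 6, 7, 3, 4, 5, 6, 7, 4, 5, 6, 7, 5, 6, 7, 6, 7, 7]

/-- the sign of a sequence of indices (`0` if two are equal) -/
def dsgn (c : Fin 8 → Fin 8) : ℤ :=
  ∏ i, ∏ j ∈ Finset.Ioi i, (if c i < c j then 1 else if c j < c i then -1 else 0)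

/-- `BAS` (60 lines). `Module.Basis.exteriorPower (Pi.basisFun ℤ (Fin 8))` reindexed by the bijection
`k ↦ {pa k, pb k}` (`Finset.orderEmbOfFin_unique`). -/
def S_BAS : Prop := ∃ b : Module.Basis (Fin 28) ℤ (⋀[ℤ]^2 V8),
  ∀ k, ((b k : ⋀[ℤ]^2 V8) : ExteriorAlgebra ℤ V8) = g (pa k) * g (pb k)

/-- `SGN` (60 lines). `ιMulti` is alternating; for a permutation `Equiv.Perm.sign_eq_prod_prod_Ioi`. -/
def S_SGN : Prop := ∀ c : Fin 8 → Fin 8,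
  g (c 0) * g (c 1) * (g (c 2) * g (c 3)) * (g (c 4) * g (c 5) * g (c 6) * g (c 7)) = dsgn c • vol

/-- `MEM` (20 lines). -/
def S_MEM : Prop := ∀ a b c d : Fin 8, g a * g b * g c * g d ∈ ⋀[ℤ]^4 V8

end

end Pool.Agent.Run7.h92.EH
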